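import Pool.Agent.Zk27.MB.Cut3

open MeasureTheory Set
open scoped ContDiff

namespace Pool.Agent.Zk27.MB

open Pool.Agent.H708R2.EulerSign Polynomial

lemma node_pos {j : ℕ} (hj : j ≠ 0) : node j = 2 ^ j := by unfold node; rw [if_neg hj]

lemma node_inj (M : ℕ) : Set.InjOn node (Finset.Icc 1 M : Finset ℕ) := by
  intro i hi j hj h
  have hi' := Finset.mem_Icc.1 hi
  have hj' := Finset.mem_Icc.1 hj
  rw [node_pos (by omega), node_pos (by omega)] at h
  exact Nat.pow_right_injective (le_refl 2) (by exact_mod_cast h)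

theorem coef_moment (M k : ℕ) (hk : k < M) :
    ∑ j ∈ Finset.range (M + 1), coef M j * node j ^ k = 0 := by
  have h1 := Lagrange.eq_interpolate (s := Finset.Icc 1 M) (v := node) (f := (X ^ k : ℝ[X]))
    (node_inj M) (by
      rw [degree_X_pow, Nat.card_Icc]
      exact_mod_cast (by omega : k < M + 1 - 1))
  have h2 := congrArg (Polynomial.eval 0) h1
  rw [Lagrange.interpolate_apply, eval_finsetSum] at h2
  simp only [eval_pow, eval_X, eval_mul, eval_C] at h2
  have h3 : ∀ i ∈ Finset.Icc 1 M, eval 0 (Lagrange.basis (Finset.Icc 1 M) node i) = - coef M i := by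
    intro i hi
    have hi0 : i ≠ 0 := by have := (Finset.mem_Icc.1 hi).1; omega
    unfold coef
    rw [if_neg hi0, neg_neg]
    unfold Lagrange.basis Lagrange.basisDivisor
    rw [eval_prod]
    refine Finset.prod_congr rfl fun j hj => ?_
    simp only [eval_mul, eval_C, eval_sub, eval_X]
    have hj' := Finset.mem_erase.1 hj
    have hne : node j - node i ≠ 0 := by
      rw [sub_ne_zero]
      intro h
      exact hj'.1 (node_inj M hj'.2 hi h)
    have hne' : node i - node j ≠ 0 := by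
      rw [sub_ne_zero]
      intro h
      exact hj'.1 (node_inj M hj'.2 hi h.symm)
    field_simp
    ring
  have h4 : ∑ j ∈ Finset.range (M + 1), coef M j * node j ^ k
      = 0 ^ k + ∑ j ∈ Finset.Icc 1 M, coef M j * node j ^ k := by
    have e : Finset.range (M + 1) = insert 0 (Finset.Icc 1 M) := by
      ext j; simp only [Finset.mem_range, Finset.mem_insert, Finset.mem_Icc]; omega
    rw [e, Finset.sum_insert (by simp)]
    congr 1
    simp [coef, node]
  rw [h4, h2, ← Finset.sum_add_distrib]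
  refine Finset.sum_eq_zero fun j hj => ?_
  rw [h3 j hj]
  ring

/-- the product over the larger nodes -/
lemma prod_large (j : ℕ) (s : Finset ℕ) (hs : ∀ i ∈ s, j < i) :
    ∏ i ∈ s, |(2:ℝ) ^ i / (2 ^ i - 2 ^ j)| ≤ Real.exp 2 := by
  have h1 : ∀ i ∈ s, |(2:ℝ) ^ i / (2 ^ i - 2 ^ j)| ≤ Real.exp (2 * (1 / 2) ^ (i - j)) := by
    intro i hi
    have hij := hs i hi
    obtain ⟨d, rfl⟩ : ∃ d, i = j + (d + 1) := ⟨i - j - 1, by omega⟩
    have e : (2:ℝ) ^ (j + (d + 1)) / (2 ^ (j + (d + 1)) - 2 ^ j) = 1 / (1 - (1 / 2) ^ (d + 1)) := by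
      rw [pow_add]
      have h2 : (0:ℝ) < 2 ^ j := by positivity
      have h3 : (1:ℝ) < 2 ^ (d + 1) := one_lt_pow₀ (by norm_num) (by omega)
      rw [div_pow, one_pow]
      field_simp
    have h4 : (1 / 2 : ℝ) ^ (d + 1) ≤ 1 / 2 := by
      calc (1 / 2 : ℝ) ^ (d + 1) ≤ (1 / 2) ^ 1 := pow_le_pow_of_le_one (by norm_num) (by norm_num) (by omega)
        _ = 1 / 2 := by norm_num
    have h5 : (0:ℝ) < (1 / 2) ^ (d + 1) := by positivity
    have e2 : j + (d + 1) - j = d + 1 := by omega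
    rw [e, e2, abs_of_pos (by apply one_div_pos.2; linarith)]
    set y : ℝ := (1 / 2) ^ (d + 1) with hy
    have h6 : 1 / (1 - y) ≤ 1 + 2 * y := by
      rw [div_le_iff₀ (by linarith)]
      nlinarith
    have h7 := Real.add_one_le_exp (2 * y)
    linarith
  refine (Finset.prod_le_prod (fun _ _ => abs_nonneg _) h1).trans ?_
  rw [← Real.exp_sum]
  apply Real.exp_le_exp.2
  rw [← Finset.mul_sum]
  have h2 : ∑ i ∈ s, (1 / 2 : ℝ) ^ (i - j) ≤ 1 := by
    have h3 : ∑ i ∈ s, (1 / 2 : ℝ) ^ (i - j) = ∑ d ∈ s.image (fun i => i - j - 1), (1 / 2 : ℝ) ^ (d + 1) := by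
      rw [Finset.sum_image]
      · refine Finset.sum_congr rfl fun i hi => ?_
        have := hs i hi
        congr 1
        omega
      · intro a ha b hb h
        have h1 := hs a ha
        have h2 := hs b hb
        simp only at h
        omega
    rw [h3]
    have h4 : Summable (fun d : ℕ => (1 / 2 : ℝ) ^ (d + 1)) := by
      have := summable_geometric_two
      exact (summable_nat_add_iff 1).2 this
    refine (h4.sum_le_tsum _ fun _ _ => by positivity).trans ?_
    have h5 : ∑' d : ℕ, (1 / 2 : ℝ) ^ (d + 1) = 1 := by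
      simp only [pow_succ]
      rw [tsum_mul_right, tsum_geometric_two]
      norm_num
    rw [h5]
  linarith

/-- the product over the smaller nodes -/
lemma prod_small (j : ℕ) (s : Finset ℕ) (hs : ∀ i ∈ s, i < j) :
    ∏ i ∈ s, |(2:ℝ) ^ i / (2 ^ i - 2 ^ j)| = ∏ i ∈ s, 1 / (2 ^ (j - i) - 1 : ℝ) := by
  refine Finset.prod_congr rfl fun i hi => ?_
  have hij := hs i hi
  obtain ⟨d, rfl⟩ : ∃ d, j = i + (d + 1) := ⟨j - i - 1, by omega⟩
  have e2 : i + (d + 1) - i = d + 1 := by omega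
  have h2 : (0:ℝ) < 2 ^ i := by positivity
  have h3 : (1:ℝ) < 2 ^ (d + 1) := one_lt_pow₀ (by norm_num) (by omega)
  rw [e2, pow_add, abs_div, abs_of_pos h2]
  have h4 : |(2:ℝ) ^ i - 2 ^ i * 2 ^ (d + 1)| = 2 ^ i * (2 ^ (d + 1) - 1) := by
    rw [abs_of_neg (by nlinarith)]; ring
  rw [h4]
  have h5 : (2:ℝ) ^ (d + 1) - 1 ≠ 0 := by linarith
  field_simp

/-- the super-exponentially small weights -/
noncomputable def Qw (j : ℕ) : ℝ := ∏ m ∈ Finset.Ico 1 j, (1 / 2 : ℝ) ^ (m - 1)

lemma Qw_pos (j : ℕ) : 0 < Qw j := Finset.prod_pos fun _ _ => by positivity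

lemma Qw_succ {j : ℕ} (hj : 1 ≤ j) : Qw (j + 1) = Qw j * (1 / 2) ^ (j - 1) := by
  unfold Qw
  rw [Finset.prod_Ico_succ_top hj]

lemma prod_Ico (j : ℕ) : ∏ i ∈ Finset.Ico 1 j, 1 / (2 ^ (j - i) - 1 : ℝ) ≤ Qw j := by
  have h1 := Finset.prod_Ico_reflect (fun m : ℕ => 1 / (2 ^ m - 1 : ℝ)) 1 (m := j) (n := j)
    (Nat.le_succ j)
  rw [h1]
  have e1 : j + 1 - j = 1 := by omega
  have e2 : j + 1 - 1 = j := by omega
  rw [e1, e2]
  unfold Qw
  refine Finset.prod_le_prod (fun m hm => ?_) fun m hm => ?_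
  · have hm1 := (Finset.mem_Ico.1 hm).1
    have h3 : (1:ℝ) < 2 ^ m := one_lt_pow₀ (by norm_num) (by omega)
    exact (one_div_pos.2 (by linarith)).le
  · have hm1 := (Finset.mem_Ico.1 hm).1
    obtain ⟨d, rfl⟩ : ∃ d, m = d + 1 := ⟨m - 1, by omega⟩
    rw [Nat.add_sub_cancel, div_pow, one_pow]
    have h4 : (1:ℝ) ≤ 2 ^ d := one_le_pow₀ (by norm_num)
    have h5 : (2:ℝ) ^ d ≤ 2 ^ (d + 1) - 1 := by rw [pow_succ]; linarith
    exact one_div_le_one_div_of_le (by positivity) h5

lemma coef_le {M j : ℕ} (hj : j ∈ Finset.Icc 1 M) : |coef M j| ≤ Real.exp 2 * Qw j := by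
  have hj1 := (Finset.mem_Icc.1 hj).1
  have hj2 := (Finset.mem_Icc.1 hj).2
  unfold coef
  rw [if_neg (by omega), abs_neg, Finset.abs_prod]
  have e0 : ∀ i ∈ (Finset.Icc 1 M).erase j, |node i / (node i - node j)|
      = |(2:ℝ) ^ i / (2 ^ i - 2 ^ j)| := by
    intro i hi
    have := (Finset.mem_Icc.1 (Finset.mem_erase.1 hi).2).1
    rw [node_pos (by omega), node_pos (by omega)]
  rw [Finset.prod_congr rfl e0]
  have e1 : (Finset.Icc 1 M).erase j = Finset.Ico 1 j ∪ Finset.Ioc j M := by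
    ext i
    simp only [Finset.mem_erase, Finset.mem_Icc, Finset.mem_union, Finset.mem_Ico, Finset.mem_Ioc]
    omega
  have hdis : Disjoint (Finset.Ico 1 j) (Finset.Ioc j M) := by
    rw [Finset.disjoint_left]
    intro i h1 h2
    have := (Finset.mem_Ico.1 h1).2
    have := (Finset.mem_Ioc.1 h2).1
    omega
  rw [e1, Finset.prod_union hdis, prod_small j _ (fun i hi => (Finset.mem_Ico.1 hi).2), mul_comm]
  refine mul_le_mul (prod_large j _ fun i hi => (Finset.mem_Ioc.1 hi).1) (prod_Ico j) ?_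
    (Real.exp_pos _).le
  refine Finset.prod_nonneg fun i hi => ?_
  have h2 := (Finset.mem_Ico.1 hi).2
  have h3 : (1:ℝ) < 2 ^ (j - i) := one_lt_pow₀ (by norm_num) (by omega)
  exact (one_div_pos.2 (by linarith)).le

lemma summable_Q (k : ℕ) : Summable (fun j : ℕ => Qw j * (2 ^ j) ^ k) := by
  refine summable_of_ratio_test_tendsto_lt_one (l := 0) zero_lt_one ?_ ?_
  · exact Filter.Eventually.of_forall fun j => (mul_pos (Qw_pos j) (by positivity)).ne'
  · have h1 : Filter.Tendsto (fun j : ℕ => (1 / 2 : ℝ) ^ (j - 1) * 2 ^ k) Filter.atTop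
        (nhds (0 * 2 ^ k)) := by
      refine Filter.Tendsto.mul_const _ ?_
      exact (tendsto_pow_atTop_nhds_zero_of_lt_one (by norm_num) (by norm_num)).comp
        (Filter.tendsto_sub_atTop_nat 1)
    rw [zero_mul] at h1
    refine h1.congr' ?_
    filter_upwards [Filter.eventually_ge_atTop 1] with j hj
    have h2 := Qw_pos j
    rw [Qw_succ hj, Real.norm_of_nonneg (by positivity), Real.norm_of_nonneg (by positivity)]
    rw [pow_succ, mul_pow]
    field_simp

theorem coef_bound (k : ℕ) : ∃ C > 0, ∀ M,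
    ∑ j ∈ Finset.range (M + 1), |coef M j| * node j ^ k ≤ C := by
  have hs := summable_Q k
  have h0 : 0 ≤ ∑' j : ℕ, Qw j * (2 ^ j) ^ k :=
    tsum_nonneg fun j => (mul_pos (Qw_pos j) (by positivity)).le
  refine ⟨1 + Real.exp 2 * ∑' j : ℕ, Qw j * (2 ^ j) ^ k, by positivity, fun M => ?_⟩
  have e : Finset.range (M + 1) = insert 0 (Finset.Icc 1 M) := by
    ext j; simp only [Finset.mem_range, Finset.mem_insert, Finset.mem_Icc]; omega
  rw [e, Finset.sum_insert (by simp)]
  refine add_le_add ?_ ?_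
  · have : |coef M 0| * node 0 ^ k = (0:ℝ) ^ k := by simp [coef, node]
    rw [this]
    exact pow_le_one₀ le_rfl zero_le_one
  · calc ∑ j ∈ Finset.Icc 1 M, |coef M j| * node j ^ k
        ≤ ∑ j ∈ Finset.Icc 1 M, Real.exp 2 * (Qw j * (2 ^ j) ^ k) := by
          refine Finset.sum_le_sum fun j hj => ?_
          have hj1 := (Finset.mem_Icc.1 hj).1
          rw [node_pos (by omega), ← mul_assoc]
          exact mul_le_mul_of_nonneg_right (coef_le hj) (by positivity)
      _ = Real.exp 2 * ∑ j ∈ Finset.Icc 1 M, Qw j * (2 ^ j) ^ k := by rw [Finset.mul_sum]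
      _ ≤ _ := by
          refine mul_le_mul_of_nonneg_left ?_ (Real.exp_pos _).le
          exact hs.sum_le_tsum _ fun j _ => (mul_pos (Qw_pos j) (by positivity)).le

end Pool.Agent.Zk27.MB
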