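import Pool.Agent.Zk27.MB.Cut3

/-! Third version: the copies -/

open MeasureTheory Set
open scoped ContDiff Topology

namespace Pool.Agent.Zk27.MB

open Pool.Agent.H708R2.EulerSign

lemma node_nonneg (j : ℕ) : 0 ≤ node j := by
  unfold node; split_ifs <;> positivity

lemma node_le {M j : ℕ} (hj : j ∈ Finset.range (M + 1)) : node j ≤ 2 ^ M := by
  unfold node
  split_ifs
  · positivity
  · exact pow_le_pow_right₀ (by norm_num) (Nat.lt_succ_iff.1 (Finset.mem_range.1 hj))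

/-- radius of the region which the scales `≥ N` see -/
noncomputable def Rd (N : ℕ) : ℝ := 10 * (1 / 2) ^ (N / 2)

lemma Rd_pos (N : ℕ) : 0 < Rd N := by unfold Rd; positivity

lemma Rd_anti : Antitone Rd := by
  intro m n h
  unfold Rd
  exact mul_le_mul_of_nonneg_left (pow_le_pow_of_le_one (by norm_num) (by norm_num)
    (Nat.div_le_div_right h)) (by norm_num)

lemma half_le_Rd (N : ℕ) : (1 / 2 : ℝ) ^ N ≤ Rd N := by
  unfold Rd
  have h : (1 / 2 : ℝ) ^ N ≤ (1 / 2) ^ (N / 2) :=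
    pow_le_pow_of_le_one (by norm_num) (by norm_num) (Nat.div_le_self N 2)
  have h2 : (0:ℝ) < (1 / 2) ^ (N / 2) := by positivity
  linarith

lemma Rd_tendsto : Filter.Tendsto Rd Filter.atTop (𝓝 0) := by
  have h1 : Filter.Tendsto (fun n : ℕ => (1 / 2 : ℝ) ^ n) Filter.atTop (𝓝 0) :=
    tendsto_pow_atTop_nhds_zero_of_lt_one (by norm_num) (by norm_num)
  have h2 : Filter.Tendsto (fun n : ℕ => n / 2) Filter.atTop Filter.atTop :=
    Nat.tendsto_div_const_atTop (by norm_num)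
  have h3 := (h1.comp h2).const_mul 10
  simp only [mul_zero] at h3
  exact h3

lemma small3 (k : ℕ) : (8 * 2 ^ (k / 4) + 2 : ℝ) / 2 ^ k ≤ Rd k := by
  unfold Rd
  rw [div_le_iff₀ (by positivity)]
  have h1 : (1:ℝ) ≤ 2 ^ (k / 4) := one_le_pow₀ (by norm_num)
  have h2 : (2:ℝ) ^ (k / 4) ≤ 2 ^ (k - k / 2) := pow_le_pow_right₀ (by norm_num) (by omega)
  have h3 : (1 / 2 : ℝ) ^ (k / 2) * 2 ^ k = 2 ^ (k - k / 2) := by
    have h4 : (2:ℝ) ^ k = 2 ^ (k - k / 2) * 2 ^ (k / 2) := by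
      rw [← pow_add]; congr 1; omega
    rw [h4, div_pow, one_pow]
    field_simp
  rw [mul_assoc, h3]
  linarith

lemma two3 (k : ℕ) : (2 : ℝ) / 2 ^ k ≤ Rd k := by
  refine le_trans ?_ (small3 k)
  gcongr
  have h1 : (0:ℝ) ≤ 2 ^ (k / 4) := by positivity
  linarith

lemma lt3 {n : ℕ} (hn : 6 ≤ n) : (8 * 2 ^ (n / 4) + 2 : ℝ) / 2 ^ n < 1 := by
  rw [div_lt_one (by positivity)]
  have h1 : (1:ℝ) ≤ 2 ^ (n / 4) := one_le_pow₀ (by norm_num)
  have h2 : (2:ℝ) ^ (n / 4) * 2 ^ 4 ≤ 2 ^ n := by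
    rw [← pow_add]
    exact pow_le_pow_right₀ (by norm_num) (by omega)
  linarith

lemma lt3' {n : ℕ} (hn : 6 ≤ n) : (2 : ℝ) / 2 ^ n < 1 := by
  refine lt_of_le_of_lt ?_ (lt3 hn)
  gcongr
  have h1 : (0:ℝ) ≤ 2 ^ (n / 4) := by positivity
  linarith

section
variable {E : Type*} [NormedAddCommGroup E] [NormedSpace ℝ E]

lemma cl_smooth (n : ℕ) {f : ℝ × ℝ → E} (hf : ContDiff ℝ ∞ f) : ContDiff ℝ ∞ (cl n f) := by
  unfold cl
  refine ContDiff.sum fun j _ => contDiff_const.smul ?_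
  refine hf.comp (ContDiff.prodMk ?_ ?_)
  · exact (contDiff_const.mul contDiff_fst).add contDiff_const
  · exact contDiff_const.mul contDiff_snd

lemma cl_small {n : ℕ} {f : ℝ × ℝ → E} (hs : ∀ z, f z ≠ 0 → |z.1| ≤ 2 ∧ |z.2| ≤ 2)
    {z : ℝ × ℝ} (h : cl n f z ≠ 0) :
    |z.1| ≤ (8 * 2 ^ (n / 4) + 2) / 2 ^ n ∧ |z.2| ≤ 2 / 2 ^ n := by
  unfold cl at h
  obtain ⟨j, hj, h1⟩ := Finset.exists_ne_zero_of_sum_ne_zero h
  have h2 : f (2 ^ n * z.1 + 8 * node j, 2 ^ n * z.2) ≠ 0 := fun h2 => h1 (by rw [h2, smul_zero])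
  obtain ⟨h3, h4⟩ := hs _ h2
  simp only at h3 h4
  have h5 : (0:ℝ) < 2 ^ n := by positivity
  have h6 := node_le hj
  have h7 := node_nonneg j
  constructor
  · have e : |z.1| * 2 ^ n = |2 ^ n * z.1| := by rw [abs_mul, abs_of_pos h5, mul_comm]
    rw [le_div_iff₀ h5, e]
    rw [_root_.abs_le] at h3 ⊢
    constructor <;> nlinarith
  · have e : |z.2| * 2 ^ n = |2 ^ n * z.2| := by rw [abs_mul, abs_of_pos h5, mul_comm]
    rw [le_div_iff₀ h5, e]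
    exact h4

lemma cl_compact {n : ℕ} {f : ℝ × ℝ → E} (hs : ∀ z, f z ≠ 0 → |z.1| ≤ 2 ∧ |z.2| ≤ 2) :
    HasCompactSupport (cl n f) := by
  refine HasCompactSupport.intro
    ((isCompact_Icc (a := (-((8 * 2 ^ (n / 4) + 2) / 2 ^ n) : ℝ))
      (b := (8 * 2 ^ (n / 4) + 2) / 2 ^ n)).prod
    (isCompact_Icc (a := (-(2 / 2 ^ n):ℝ)) (b := 2 / 2 ^ n))) fun z hz => ?_
  by_contra h
  have := cl_small hs h
  exact hz ⟨_root_.abs_le.1 this.1, _root_.abs_le.1 this.2⟩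

lemma cl_norm {n : ℕ} {f : ℝ × ℝ → E} {C Cc : ℝ} (hC0 : 0 ≤ C) (hC : ∀ z, ‖f z‖ ≤ C)
    (hc : ∀ M, ∑ j ∈ Finset.range (M + 1), |coef M j| ≤ Cc) (z : ℝ × ℝ) :
    ‖cl n f z‖ ≤ Cc * C := by
  unfold cl
  refine (norm_sum_le _ _).trans ?_
  have h1 : ∀ j ∈ Finset.range (n / 4 + 1),
      ‖coef (n / 4) j • f (2 ^ n * z.1 + 8 * node j, 2 ^ n * z.2)‖ ≤ |coef (n / 4) j| * C := by
    intro j _
    rw [norm_smul, Real.norm_eq_abs]
    exact mul_le_mul_of_nonneg_left (hC _) (abs_nonneg _)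
  refine (Finset.sum_le_sum h1).trans ?_
  rw [← Finset.sum_mul]
  exact mul_le_mul_of_nonneg_right (hc _) hC0

lemma cl_clm {F : Type*} [NormedAddCommGroup F] [NormedSpace ℝ F] (n : ℕ) (f : ℝ × ℝ → E)
    (L : E →L[ℝ] F) (z : ℝ × ℝ) : L (cl n f z) = cl n (fun z => L (f z)) z := by
  unfold cl
  rw [map_sum]
  refine Finset.sum_congr rfl fun j _ => ?_
  rw [map_smul]

/-- on the right half plane there is only one copy -/
lemma cl_right {n : ℕ} {f : ℝ × ℝ → E} (hs : ∀ z, f z ≠ 0 → |z.1| ≤ 2 ∧ |z.2| ≤ 2)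
    {z : ℝ × ℝ} (hz : 0 ≤ z.1) : cl n f z = f (2 ^ n * z.1, 2 ^ n * z.2) := by
  unfold cl
  rw [Finset.sum_eq_single_of_mem 0 (Finset.mem_range.2 (Nat.succ_pos _))]
  · simp [coef, node]
  · intro j _ hj
    have h1 : (2:ℝ) ≤ 2 ^ j := by
      calc (2:ℝ) = 2 ^ 1 := by norm_num
        _ ≤ 2 ^ j := pow_le_pow_right₀ (by norm_num) (Nat.one_le_iff_ne_zero.2 hj)
    have h2 : node j = 2 ^ j := by unfold node; rw [if_neg hj]
    have h3 : f (2 ^ n * z.1 + 8 * node j, 2 ^ n * z.2) = 0 := by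
      by_contra h
      have h4 := (hs _ h).1
      simp only [h2] at h4
      rw [_root_.abs_le] at h4
      have : (0:ℝ) ≤ 2 ^ n * z.1 := by positivity
      linarith
    rw [h3, smul_zero]

end

/-- the planar fields of the cascade -/
noncomputable def Xh (a : ℕ → ℝ) (k : ℕ) (z : ℝ × ℝ) : ℝ × ℝ := (a k * (1 / 2) ^ k) • cl k V0 z

/-- the averaging functions of the cascade -/
noncomputable def qh (k : ℕ) (z : ℝ × ℝ) : ℝ := 4 ^ k * cl k phi z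

lemma qh_smooth (k : ℕ) : ContDiff ℝ ∞ (qh k) := by
  have h := (contDiff_const (c := (4:ℝ) ^ k)).mul (cl_smooth k phi_smooth)
  exact h

lemma qh_small {k : ℕ} {z : ℝ × ℝ} (h : qh k z ≠ 0) :
    |z.1| ≤ (8 * 2 ^ (k / 4) + 2) / 2 ^ k ∧ |z.2| ≤ 2 / 2 ^ k := by
  refine cl_small (f := phi) phi_supp2 fun h1 => h ?_
  unfold qh; rw [h1, mul_zero]

lemma qh_compact (k : ℕ) : HasCompactSupport (qh k) := by
  exact (cl_compact (n := k) (f := phi) phi_supp2).mul_left (f := fun _ => (4:ℝ) ^ k)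

lemma qh_right (k : ℕ) (z : ℝ × ℝ) (hz : 0 ≤ z.1) :
    qh k z = 4 ^ k * phi (2 ^ k * z.1, 2 ^ k * z.2) := by
  unfold qh
  rw [cl_right phi_supp2 hz]

lemma Xh_smooth (a : ℕ → ℝ) (k : ℕ) : ContDiff ℝ ∞ (Xh a k) := by
  have h := (contDiff_const (c := a k * (1 / 2) ^ k)).smul (cl_smooth k V0_smooth)
  exact h

lemma Xh_small {a : ℕ → ℝ} {k : ℕ} {z : ℝ × ℝ} (h : Xh a k z ≠ 0) :
    |z.1| ≤ (8 * 2 ^ (k / 4) + 2) / 2 ^ k ∧ |z.2| ≤ 2 / 2 ^ k := by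
  refine cl_small (f := V0) (fun _ h => V0_supp h) fun h1 => h ?_
  unfold Xh; rw [h1, smul_zero]

lemma Xh_compact (a : ℕ → ℝ) (k : ℕ) : HasCompactSupport (Xh a k) := by
  exact (cl_compact (n := k) (f := V0) (fun _ h => V0_supp h)).smul_left
    (f := fun _ => a k * (1 / 2) ^ k)

lemma Xh_right (a : ℕ → ℝ) (k : ℕ) (z : ℝ × ℝ) (hz : 0 ≤ z.1) :
    Xh a k z = (a k * (1 / 2) ^ k) • V0 (2 ^ k * z.1, 2 ^ k * z.2) := by
  unfold Xh
  rw [cl_right (fun _ h => V0_supp h) hz]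

lemma Xh_fderiv (a : ℕ → ℝ) (k : ℕ) (z v : ℝ × ℝ) : fderiv ℝ (Xh a k) z v =
    (a k * (1 / 2) ^ k) • ∑ j ∈ Finset.range (k / 4 + 1),
      coef (k / 4) j •
        fderiv ℝ V0 (2 ^ k * z.1 + 8 * node j, 2 ^ k * z.2) ((2:ℝ) ^ k • v) := by
  have h : HasFDerivAt (Xh a k) ((a k * (1 / 2) ^ k) • ∑ j ∈ Finset.range (k / 4 + 1),
      coef (k / 4) j •
        (fderiv ℝ V0 (2 ^ k * z.1 + 8 * node j, 2 ^ k * z.2)).comp
          ((2:ℝ) ^ k • ContinuousLinearMap.id ℝ (ℝ × ℝ))) z := by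
    have h0 : ∀ j ∈ Finset.range (k / 4 + 1), HasFDerivAt (fun z : ℝ × ℝ =>
        coef (k / 4) j • V0 (2 ^ k * z.1 + 8 * node j, 2 ^ k * z.2))
        (coef (k / 4) j •
        (fderiv ℝ V0 (2 ^ k * z.1 + 8 * node j, 2 ^ k * z.2)).comp
          ((2:ℝ) ^ k • ContinuousLinearMap.id ℝ (ℝ × ℝ))) z := ?_
    · exact (HasFDerivAt.fun_sum h0).fun_const_smul _
    intro j _
    refine HasFDerivAt.fun_const_smul ?_ _
    refine HasFDerivAt.comp z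
      (V0_smooth.differentiable (by simp) _).hasFDerivAt ?_
    have h1 : HasFDerivAt (fun z : ℝ × ℝ => (2:ℝ) ^ k • z + (8 * node j, (0:ℝ)))
        ((2:ℝ) ^ k • ContinuousLinearMap.id ℝ (ℝ × ℝ)) z :=
      (((hasFDerivAt_id (𝕜 := ℝ) z).fun_const_smul ((2:ℝ) ^ k))).add_const _
    have e : (fun z : ℝ × ℝ => (2:ℝ) ^ k • z + (8 * node j, (0:ℝ)))
        = fun z : ℝ × ℝ => (2 ^ k * z.1 + 8 * node j, 2 ^ k * z.2) := by
      funext w
      ext <;> simp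
    rw [e] at h1
    exact h1
  rw [h.fderiv]
  simp

lemma Xh_div (a : ℕ → ℝ) (k : ℕ) (z : ℝ × ℝ) :
    (fderiv ℝ (Xh a k) z (1, 0)).1 + (fderiv ℝ (Xh a k) z (0, 1)).2 = 0 := by
  rw [Xh_fderiv, Xh_fderiv]
  have e : ∀ (s : Finset ℕ) (c : ℕ → ℝ) (f : ℕ → ℝ × ℝ),
      (∑ j ∈ s, c j • f j).1 = ∑ j ∈ s, c j * (f j).1 := by
    intro s c f
    rw [Prod.fst_sum]; rfl
  have e' : ∀ (s : Finset ℕ) (c : ℕ → ℝ) (f : ℕ → ℝ × ℝ),
      (∑ j ∈ s, c j • f j).2 = ∑ j ∈ s, c j * (f j).2 := by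
    intro s c f
    rw [Prod.snd_sum]; rfl
  rw [Prod.smul_fst, Prod.smul_snd, e, e', ← smul_add, ← Finset.sum_add_distrib]
  rw [Finset.sum_eq_zero, smul_zero]
  intro j _
  rw [← mul_add, map_smul, map_smul, Prod.smul_fst, Prod.smul_snd, ← smul_add, V0_div, smul_zero,
    mul_zero]

lemma Xh_norm {a : ℕ → ℝ} (ha : ∀ n, 0 ≤ a n) {C Cc : ℝ} (hC0 : 0 ≤ C)
    (hc : ∀ M, ∑ j ∈ Finset.range (M + 1), |coef M j| ≤ Cc) (k : ℕ) (hC : ∀ z, ‖V0 z‖ ≤ C)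
    (z : ℝ × ℝ) : ‖Xh a k z‖ ≤ Cc * C * (a k * (1 / 2) ^ k) := by
  unfold Xh
  have h1 := ha k
  rw [norm_smul, Real.norm_of_nonneg (by positivity)]
  calc a k * (1 / 2) ^ k * ‖cl k V0 z‖ ≤ a k * (1 / 2) ^ k * (Cc * C) :=
        mul_le_mul_of_nonneg_left (cl_norm hC0 hC hc z) (by positivity)
    _ = _ := by ring

/-- integral of a rescaled copy -/
lemma integral_copy (k : ℕ) (s : ℝ) (f : ℝ × ℝ → ℝ) :
    ∫ z : ℝ × ℝ, f (2 ^ k * z.1 + s, 2 ^ k * z.2) = (1 / 4) ^ k * ∫ z, f z := by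
  have h0 : (0:ℝ) < 2 ^ k := by positivity
  have h1 : ∀ z : ℝ × ℝ, f (2 ^ k * z.1 + s, 2 ^ k * z.2)
      = (fun y => f ((2:ℝ) ^ k • y)) (z + (s / 2 ^ k, 0)) := by
    intro z
    simp only
    congr 1
    ext
    · simp [mul_add]; field_simp
    · simp
  simp only [h1]
  rw [integral_add_right_eq_self (fun y => f ((2:ℝ) ^ k • y)) ((s / 2 ^ k, 0) : ℝ × ℝ),
    Measure.integral_comp_smul]
  have h2 : Module.finrank ℝ (ℝ × ℝ) = 2 := by simp
  rw [h2, smul_eq_mul]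
  congr 1
  rw [abs_of_pos (by positivity), ← pow_mul, mul_comm k 2, pow_mul, one_div, inv_pow]
  norm_num

lemma coeff3 {Cc : ℝ} (hc : ∀ M, ∑ j ∈ Finset.range (M + 1), |coef M j| ≤ Cc) (k : ℕ)
    (w : ℝ × ℝ → ℝ) (hw : ∀ z, |w z| ≤ 1) : |∫ x, qh k x * w x| ≤ Cc := by
  have hint : ∀ j, Integrable (fun z : ℝ × ℝ => phi (2 ^ k * z.1 + 8 * node j, 2 ^ k * z.2)) := by
    intro j
    refine Continuous.integrable_of_hasCompactSupport ?_ ?_
    · exact phi_smooth.continuous.comp (by fun_prop)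
    · refine HasCompactSupport.intro
        ((isCompact_Icc (a := (-((8 * node j + 2) / 2 ^ k) : ℝ))
          (b := (8 * node j + 2) / 2 ^ k)).prod
        (isCompact_Icc (a := (-(2 / 2 ^ k):ℝ)) (b := 2 / 2 ^ k))) fun z hz => ?_
      by_contra h
      obtain ⟨h3, h4⟩ := phi_supp2 _ h
      simp only at h3 h4
      have h5 : (0:ℝ) < 2 ^ k := by positivity
      have h7 := node_nonneg j
      refine hz ⟨_root_.abs_le.1 ?_, _root_.abs_le.1 ?_⟩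
      · have e : |z.1| * 2 ^ k = |2 ^ k * z.1| := by rw [abs_mul, abs_of_pos h5, mul_comm]
        rw [le_div_iff₀ h5, e]
        rw [_root_.abs_le] at h3 ⊢
        constructor <;> nlinarith
      · have e : |z.2| * 2 ^ k = |2 ^ k * z.2| := by rw [abs_mul, abs_of_pos h5, mul_comm]
        rw [le_div_iff₀ h5, e]
        exact h4
  rw [← Real.norm_eq_abs]
  refine (norm_integral_le_integral_norm _).trans ?_
  have hle : ∀ z, ‖qh k z * w z‖ ≤ ∑ j ∈ Finset.range (k / 4 + 1),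
      4 ^ k * (|coef (k / 4) j| * phi (2 ^ k * z.1 + 8 * node j, 2 ^ k * z.2)) := by
    intro z
    rw [norm_mul]
    have h1 : ‖qh k z‖ ≤ ∑ j ∈ Finset.range (k / 4 + 1),
        4 ^ k * (|coef (k / 4) j| * phi (2 ^ k * z.1 + 8 * node j, 2 ^ k * z.2)) := by
      unfold qh cl
      rw [norm_mul, norm_pow, Real.norm_of_nonneg (by norm_num : (0:ℝ) ≤ 4), ← Finset.mul_sum]
      refine mul_le_mul_of_nonneg_left ?_ (by positivity)
      refine (norm_sum_le _ _).trans (Finset.sum_le_sum fun j _ => ?_)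
      rw [norm_smul, Real.norm_eq_abs, Real.norm_of_nonneg (phi_nonneg _)]
    calc ‖qh k z‖ * ‖w z‖ ≤ ‖qh k z‖ * 1 :=
          mul_le_mul_of_nonneg_left (hw z) (norm_nonneg _)
      _ = ‖qh k z‖ := mul_one _
      _ ≤ _ := h1
  have hint2 : Integrable (fun z : ℝ × ℝ => ∑ j ∈ Finset.range (k / 4 + 1),
      4 ^ k * (|coef (k / 4) j| * phi (2 ^ k * z.1 + 8 * node j, 2 ^ k * z.2))) :=
    integrable_finsetSum _ fun j _ => ((hint j).const_mul _).const_mul _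
  refine (integral_mono_of_nonneg (Filter.Eventually.of_forall fun z => norm_nonneg _) hint2
    (Filter.Eventually.of_forall hle)).trans ?_
  rw [integral_finsetSum _ fun j _ => ((hint j).const_mul _).const_mul _]
  simp only [integral_const_mul, integral_copy, phi_integral, mul_one]
  refine le_trans (le_of_eq ?_) (hc (k / 4))
  refine Finset.sum_congr rfl fun j _ => ?_
  have : (4:ℝ) ^ k * (1 / 4) ^ k = 1 := by rw [← mul_pow]; norm_num
  calc (4:ℝ) ^ k * (|coef (k / 4) j| * (1 / 4) ^ k) = (4 ^ k * (1 / 4) ^ k) * |coef (k / 4) j| := by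
        ring
    _ = _ := by rw [this, one_mul]

end Pool.Agent.Zk27.MB
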