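import Pool.Agent.Zk27.MB3.Blow
import Pool.Agent.Zk27.MB.FR3
import Pool.Agent.Zk27.MB3.C3
import Pool.Agent.Zk94.MB.O1c
import Pool.Agent.Zk67.MB3.O2
import Pool.Agent.Zk52.MB3.SQ
import Pool.Agent.Zk50.MB3.E3

/-! Third version: final assembly -/

open MeasureTheory Set
open scoped ContDiff Topology

namespace Pool.Agent.Zk27.MB

open Pool.Agent.H708R2.EulerSign
open Pool.Agent.R739.ET (wr wr_add wr_eq wr_exists)

/-- The tube of radius `ρ` around the closed line `x₁ = x₂ = 0` of `𝕋³` (and its translates by the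
period lattice). -/
def Tube (ρ : ℝ) : Set V :=
  {x | ∃ k l : ℤ, |x 0 - 2 * Real.pi * k| < ρ ∧ |x 1 - 2 * Real.pi * l| < ρ}

/-- The admissible profiles: smooth, bounded by `1`, compactly supported in `(0, 1) × (-1, 1)`, and
at least `1/2` on the rectangle `[x₁, 1/2] × [-1/2, 1/2]`. -/
structure Profile (x₁ : ℝ) (w₀ : ℝ × ℝ → ℝ) : Prop where
  smooth : ContDiff ℝ ∞ w₀
  le_one : ∀ z, |w₀ z| ≤ 1
  supp : tsupport w₀ ⊆ Ioo 0 1 ×ˢ Ioo (-1) 1
  big : ∀ z : ℝ × ℝ, x₁ ≤ z.1 → z.1 ≤ 1 / 2 → |z.2| ≤ 1 / 2 → 1 / 2 ≤ w₀ z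

lemma Profile.dat {x₁ : ℝ} {w₀ : ℝ × ℝ → ℝ} (h : Profile x₁ w₀) {n₀ : ℕ} (hn : 6 ≤ n₀) :
    ∃ r₀, Dat3 n₀ w₀ r₀ := by
  have hc : IsCompact (tsupport w₀) := by
    refine (isCompact_Icc (a := (0:ℝ)) (b := 1)).prod (isCompact_Icc (a := (-1:ℝ)) (b := 1))
      |>.of_isClosed_subset (isClosed_tsupport _) (h.supp.trans ?_)
    exact prod_mono Ioo_subset_Icc_self Ioo_subset_Icc_self
  have hsupp : ∀ z, w₀ z ≠ 0 → z ∈ tsupport w₀ := fun z hz => subset_tsupport _ hz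
  by_cases hne : (tsupport w₀).Nonempty
  · obtain ⟨z₀, hz₀, hmin⟩ := hc.exists_isMinOn hne (f := Prod.fst) continuous_fst.continuousOn
    refine ⟨z₀.1, hn, h.smooth, h.le_one, (h.supp hz₀).1.1, fun z hz => ?_⟩
    have h1 := hsupp z hz
    have h2 := h.supp h1
    exact ⟨hmin h1, h2.1.2, abs_lt.2 ⟨h2.2.1, h2.2.2⟩⟩
  · refine ⟨1, hn, h.smooth, h.le_one, one_pos, fun z hz => ?_⟩
    exact absurd ⟨z, hsupp z hz⟩ hne

lemma exists_profile {x₁ : ℝ} (h0 : 0 < x₁) (h1 : x₁ < 1 / 2) : ∃ w₀, Profile x₁ w₀ := by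
  set c : ℝ := (x₁ + 1 / 2) / 2 with hc
  set r : ℝ := (1 / 2 - x₁) / 2 with hr
  have hr0 : 0 < r := by rw [hr]; linarith
  let f : ContDiffBump c := ⟨r, r + x₁ / 2, hr0, by linarith⟩
  let g : ContDiffBump (0:ℝ) := ⟨1 / 2, 3 / 4, by norm_num, by norm_num⟩
  refine ⟨fun z => f z.1 * g z.2, ?_, ?_, ?_, ?_⟩
  · exact (f.contDiff.comp contDiff_fst).mul (g.contDiff.comp contDiff_snd)
  · intro z
    rw [abs_of_nonneg (mul_nonneg f.nonneg g.nonneg)]
    exact mul_le_one₀ f.le_one g.nonneg g.le_one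
  · have hsub : tsupport (fun z : ℝ × ℝ => f z.1 * g z.2)
        ⊆ Metric.closedBall c (r + x₁ / 2) ×ˢ Metric.closedBall (0:ℝ) (3 / 4) := by
      refine closure_minimal (fun z hz => ?_) (Metric.isClosed_closedBall.prod
        Metric.isClosed_closedBall)
      have hz' : f z.1 * g z.2 ≠ 0 := hz
      have h2 : z.1 ∈ Function.support f := left_ne_zero_of_mul hz'
      have h3 : z.2 ∈ Function.support g := right_ne_zero_of_mul hz'
      rw [ContDiffBump.support_eq] at h2 h3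
      exact ⟨Metric.ball_subset_closedBall h2, Metric.ball_subset_closedBall h3⟩
    refine hsub.trans (prod_mono ?_ ?_)
    · intro s hs
      rw [Metric.mem_closedBall, Real.dist_eq, _root_.abs_le] at hs
      constructor <;> linarith [hs.1, hs.2]
    · intro s hs
      rw [Metric.mem_closedBall, Real.dist_eq, _root_.abs_le] at hs
      constructor <;> linarith [hs.1, hs.2]
  · intro z h2 h3 h4
    have e1 : f z.1 = 1 := by
      refine f.one_of_mem_closedBall ?_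
      rw [Metric.mem_closedBall, Real.dist_eq, _root_.abs_le]
      change -r ≤ z.1 - c ∧ z.1 - c ≤ r
      constructor <;> linarith
    have e2 : g z.2 = 1 := by
      refine g.one_of_mem_closedBall ?_
      rw [Metric.mem_closedBall, Real.dist_eq, sub_zero]
      exact h4
    simp only [e1, e2]
    norm_num

lemma bl_tube {n₀ : ℕ} {ρ : ℝ} (hρ : Rd n₀ < ρ) {n : ℕ} (hn : n₀ ≤ n) {f : ℝ × ℝ → V}
    (hs : ∀ z, f z ≠ 0 → |z.1| ≤ 2 ∧ |z.2| ≤ 2) {x : V} (hx : x ∉ Tube ρ) : bl n f x = 0 := by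
  by_contra h
  have h1 := cl_small (n := n) hs (z := pr x) h
  have h2 : |wr (x 0)| < ρ := lt_of_le_of_lt (h1.1.trans ((small3 n).trans (Rd_anti hn))) hρ
  have h3 : |wr (x 1)| < ρ := lt_of_le_of_lt (h1.2.trans ((two3 n).trans (Rd_anti hn))) hρ
  obtain ⟨k, hk⟩ := wr_exists (x 0)
  obtain ⟨l, hl⟩ := wr_exists (x 1)
  refine hx ⟨k, l, ?_, ?_⟩
  · have e : x 0 - 2 * Real.pi * k = wr (x 0) := by linarith
    rw [e]; exact h2
  · have e : x 1 - 2 * Real.pi * l = wr (x 1) := by linarith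
    rw [e]; exact h3

/-- both signs -/
lemma Fl3.sign {n₀ : ℕ} {b : ℕ → ℝ} {w₀ : ℝ × ℝ → ℝ} {N : ℕ} {Z Y : ℝ → ℝ × ℝ → ℝ × ℝ}
    (hF : Fl3 n₀ b w₀ N Z Y) {σ c : ℝ} (h : σ * c = 1) :
    Fl3 n₀ (fun n => c * b n) (fun z => σ * w₀ z) N Z Y where
  smoothZ := hF.smoothZ
  smoothY := hF.smoothY
  zero := hF.zero
  left := hF.left
  right := hF.right
  ode := by
    intro t p
    refine (hF.ode t p).congr_deriv ?_
    refine Finset.sum_congr rfl fun k _ => ?_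
    unfold Xh
    rw [smul_smul, smul_smul]
    congr 1
    have e : ∫ x, qh k x * (σ * w₀ (Y t x)) = σ * ∫ x, qh k x * w₀ (Y t x) := by
      rw [← integral_const_mul]
      congr 1
      funext x
      ring
    rw [e]
    calc (∫ x, qh k x * w₀ (Y t x)) * (b k * (1 / 2) ^ k)
        = (σ * c) * ((∫ x, qh k x * w₀ (Y t x)) * (b k * (1 / 2) ^ k)) := by rw [h, one_mul]
      _ = _ := by ring

lemma Life.sign {n₀ : ℕ} {b : ℕ → ℝ} {w₀ : ℝ × ℝ → ℝ} {σ c : ℝ} (h : σ * c = 1) :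
    Life n₀ (fun n => c * b n) (fun z => σ * w₀ z) = Life n₀ b w₀ := by
  have hσ : σ ≠ 0 := left_ne_zero_of_mul (h ▸ one_ne_zero : σ * c ≠ 0)
  have hc : c ≠ 0 := right_ne_zero_of_mul (h ▸ one_ne_zero : σ * c ≠ 0)
  ext t
  constructor
  · rintro ⟨h0, N, Z, Y, hF, hG⟩
    refine ⟨h0, N, Z, Y, ?_, fun s hs z hz => ?_⟩
    · have h1 := hF.sign (σ := c) (c := σ) (by rw [mul_comm]; exact h)
      have e1 : (fun n => σ * (c * b n)) = b := by
        funext n; rw [← mul_assoc, h, one_mul]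
      have e2 : (fun z => c * (σ * w₀ z)) = w₀ := by
        funext z; rw [← mul_assoc, mul_comm c σ, h, one_mul]
      rwa [e1, e2] at h1
    · have := hG s hs z hz
      exact (mul_eq_zero.1 this).resolve_left hσ
  · rintro ⟨h0, N, Z, Y, hF, hG⟩
    refine ⟨h0, N, Z, Y, hF.sign h, fun s hs z hz => ?_⟩
    simp only [hG s hs z hz, mul_zero]

lemma par_smul (c : ℝ) (w : ℝ × ℝ → ℝ) (x : V) : par (fun z => c * w z) x = c • par w x := by
  unfold par
  ext i; fin_cases i <;> simp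

/-- **Blow-up for Euler-type equations arbitrarily close to the Euler equations.** -/
theorem main3 (om : ℝ → ℝ) (hom : NonOsgood om) (ρ : ℝ) (hρ : 0 < ρ) :
    ∃ (T : (V → V) → V → V) (x₁ : ℝ), IsReg om T ∧
      (∀ u, ∀ x ∉ Tube ρ, T u x = 0) ∧ (∀ u w, (∀ x ∈ Tube ρ, u x = w x) → T u = T w) ∧
      (∀ (ε a : ℝ) (u : ℝ → V → V) (q : ℝ → V → ℝ), IsModSol (fun u x => ε • T u x) (Ico 0 a) u q →
        ∀ t ∈ Ico 0 a, ip (u t) (fun x => u t x + ε • T (u t) x)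
          = ip (u 0) (fun x => u 0 x + ε • T (u 0) x)) ∧
      0 < x₁ ∧ x₁ < 1 / 2 ∧ (∃ w₀, Profile x₁ w₀) ∧ ∀ w₀, Profile x₁ w₀ →
        IsClassicalSolution univ (fun _ => par w₀) (fun _ _ => 0) ∧
        ∃ Ts : ℝ, 0 < Ts ∧ ∀ ε : ℝ, ε ≠ 0 → ∃ (u : ℝ → V → V) (q : ℝ → V → ℝ),
          (u 0 = fun x => Real.sign ε • par w₀ x) ∧
          IsModSol (fun u x => ε • T u x) (Ico 0 (Ts / |ε|)) u q ∧
          ContDiffOn ℝ ∞ (fun z : ℝ × V => u z.1 z.2) (Ico 0 (Ts / |ε|) ×ˢ univ) ∧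
          ContDiffOn ℝ ∞ (fun z : ℝ × V => q z.1 z.2) (Ico 0 (Ts / |ε|) ×ˢ univ) ∧
          (∀ t x, ‖u t x‖ ≤ 1) ∧ (∀ t x, u t x 0 = 0 ∧ u t x 1 = 0) ∧
          (∀ (a : ℝ) (v : ℝ → V → V) (r : ℝ → V → ℝ),
            IsModSol (fun u x => ε • T u x) (Ico 0 a) v r → v 0 = u 0 →
              a ≤ Ts / |ε| ∧ ∀ t ∈ Ico 0 a, v t = u t) ∧
          ∀ g : ℝ → ℝ, IntegrableOn g (Ico 0 (Ts / |ε|)) →
            ∃ t ∈ Ico 0 (Ts / |ε|), ∃ x, g t < ‖fderiv ℝ (u t) x‖ := by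
  obtain ⟨K, hK1, hK⟩ := kap_bounded
  -- the first scale
  obtain ⟨n₀, hn₀6, hn₀⟩ : ∃ n₀, 6 ≤ n₀ ∧ Rd n₀ < ρ := by
    have h1 : ∀ᶠ n in Filter.atTop, Rd n < ρ := (Rd_tendsto).eventually (gt_mem_nhds hρ)
    obtain ⟨n, hn⟩ := (h1.and (Filter.eventually_ge_atTop 6)).exists
    exact ⟨n, hn.2, hn.1⟩
  obtain ⟨b, hb0, hbs, ⟨c, hc, hbc⟩, hS, hS0⟩ := exists_weights om hom K n₀
  obtain ⟨C0, hC0, hcb0⟩ := coef_bound 0
  have hcb : ∀ M, ∑ j ∈ Finset.range (M + 1), |coef M j| ≤ C0 := by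
    intro M
    have := hcb0 M
    simpa using this
  obtain ⟨CV, hCV, hV⟩ := V0_bounded
  obtain ⟨x₁, T₁, N₁, hx0, hx1, hT₁, hfront⟩ := front3 n₀ hn₀6 b K hb0 hK hS hS0 (Xh b) qh
    (Xh_smooth b) (Xh_compact b) (Xh_right b) (fun k => (qh_smooth k).continuous) qh_compact
    qh_right (fun k => C0 * CV * (b k * (1 / 2) ^ k)) (hbs.mul_left _)
    (fun k z => Xh_norm hb0 hCV.le hcb k hV z)
  have hBF := Pool.Agent.Zk94.MB.blocks3' coef_moment coef_bound n₀ hn₀6 F0 F0_smooth F0_supp F0_div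
  have hBG := Pool.Agent.Zk94.MB.blocks3' coef_moment coef_bound n₀ hn₀6 G0 G0_smooth G0_supp G0_div
  have hreg : IsReg om (TH n₀ b) := isReg n₀ b hb0 hbs om c hc hbc _ _ hBF hBG (1 / (2 * Real.pi))
  have hregε : ∀ ε : ℝ, IsReg om (fun u x => ε • TH n₀ b u x) := fun ε => isReg_smul hom.pos hreg ε
  refine ⟨TH n₀ b, x₁, hreg, ?_, ?_, ?_, hx0, hx1, exists_profile hx0 hx1, ?_⟩
  · intro u x hx
    unfold TH opr
    have h1 : ∀ n, bl (n₀ + n) F0 x = 0 := fun n => bl_tube hn₀ (Nat.le_add_right _ _) F0_supp hx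
    have h2 : ∀ n, bl (n₀ + n) G0 x = 0 := fun n => bl_tube hn₀ (Nat.le_add_right _ _) G0_supp hx
    simp only [h1, h2, smul_zero, add_zero, tsum_zero]
  · intro u w huw
    have h1 : ∀ (f : ℝ × ℝ → V), (∀ z, f z ≠ 0 → |z.1| ≤ 2 ∧ |z.2| ≤ 2) → ∀ n,
        ip u (bl (n₀ + n) f) = ip w (bl (n₀ + n) f) := by
      intro f hf n
      unfold ip
      congr 1
      funext x
      by_cases hx : x ∈ Tube ρ
      · rw [huw x hx]
      · rw [bl_tube hn₀ (Nat.le_add_right _ _) hf hx]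
        simp
    funext x
    unfold TH opr
    simp only [h1 F0 F0_supp, h1 G0 G0_supp]
  · intro ε a u q hu
    exact energy3 (hregε ε) hu
  · intro w₀ hw
    obtain ⟨r₀, hD⟩ := hw.dat hn₀6
    have hcl : IsClassicalSolution univ (fun _ => par w₀) (fun _ _ => 0) :=
      par_steady (hw.smooth.of_le (by simp)) (fun z hz => hD.supp' hz)
    refine ⟨hcl, ?_⟩
    have hfr : ∀ N ≥ N₁, ∀ Z Y, Fl3 n₀ b w₀ N Z Y → w₀ (Y T₁ ((1 / 2) ^ N, 0)) ≠ 0 := by
      intro N hN Z Y hF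
      have h1 := hfront w₀ hw.smooth hw.le_one (fun z hz => by
        obtain ⟨h1, h2, h3⟩ := hD.supp z hz
        exact ⟨hD.pos.trans_le h1, h2, h3⟩) hw.big N hN Z Y hF
      intro h2
      rw [h2] at h1
      linarith
    -- the general step, for a weight `ε` and a sign `σ`
    have key : ∀ (ε σ : ℝ), σ * ε = |ε| → σ * σ = 1 → ε ≠ 0 →
        Life n₀ (fun n => ε * b n) (fun z => σ * w₀ z) = Life n₀ (fun n => |ε| * b n) w₀ ∧
        (Life n₀ (fun n => ε * b n) (fun z => σ * w₀ z)).Nonempty ∧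
        BddAbove (Life n₀ (fun n => ε * b n) (fun z => σ * w₀ z)) ∧
        0 < sSup (Life n₀ (fun n => ε * b n) (fun z => σ * w₀ z)) ∧
        ∃ (u : ℝ → V → V) (q : ℝ → V → ℝ), u 0 = par (fun z => σ * w₀ z) ∧
          IsModSol (fun u x => ε • TH n₀ b u x)
            (Ico 0 (sSup (Life n₀ (fun n => ε * b n) (fun z => σ * w₀ z)))) u q ∧
          ContDiffOn ℝ ∞ (fun z : ℝ × V => u z.1 z.2)
            (Ico 0 (sSup (Life n₀ (fun n => ε * b n) (fun z => σ * w₀ z))) ×ˢ univ) ∧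
          ContDiffOn ℝ ∞ (fun z : ℝ × V => q z.1 z.2)
            (Ico 0 (sSup (Life n₀ (fun n => ε * b n) (fun z => σ * w₀ z))) ×ˢ univ) ∧
          (∀ t x, ‖u t x‖ ≤ 1) ∧ (∀ t x, u t x 0 = 0 ∧ u t x 1 = 0) ∧
          (∀ (a : ℝ) (v : ℝ → V → V) (r : ℝ → V → ℝ),
            IsModSol (fun u x => ε • TH n₀ b u x) (Ico 0 a) v r → v 0 = u 0 →
              a ≤ sSup (Life n₀ (fun n => ε * b n) (fun z => σ * w₀ z)) ∧
                ∀ t ∈ Ico 0 a, v t = u t) ∧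
          ∀ g : ℝ → ℝ, IntegrableOn g
              (Ico 0 (sSup (Life n₀ (fun n => ε * b n) (fun z => σ * w₀ z)))) →
            ∃ t ∈ Ico 0 (sSup (Life n₀ (fun n => ε * b n) (fun z => σ * w₀ z))), ∃ x,
              g t < ‖fderiv ℝ (u t) x‖ := by
      intro ε σ h1 h2 hε
      have hε' : 0 < |ε| := abs_pos.2 hε
      have hσa : |σ| = 1 := by
        have : |σ| * |σ| = 1 := by rw [← abs_mul, h2, abs_one]
        nlinarith [abs_nonneg σ]
      have e0 : (fun n => ε * b n) = fun n => σ * (|ε| * b n) := by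
        funext n
        rw [← h1, ← mul_assoc, ← mul_assoc, h2, one_mul]
      have hL : Life n₀ (fun n => ε * b n) (fun z => σ * w₀ z) = Life n₀ (fun n => |ε| * b n) w₀ := by
        rw [e0]
        exact Life.sign h2
      have hD' : Dat3 n₀ (fun z => σ * w₀ z) r₀ := by
        refine ⟨hD.hn, contDiff_const.mul hD.smooth, fun z => ?_, hD.pos, fun z hz => ?_⟩
        · rw [abs_mul, hσa, one_mul]; exact hD.le_one z
        · exact hD.supp z (right_ne_zero_of_mul hz)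
      have hTe : TH n₀ (fun n => ε * b n) = fun u x => ε • TH n₀ b u x := by
        funext u x
        exact TH_smul n₀ ε b u x
      obtain ⟨C, hC⟩ := isOp_of_isReg (hregε ε)
      rw [← hTe] at hC
      obtain ⟨CX, hCX, hX⟩ := vel_bound3 hb0 hbs hcb
      have hX' : ∀ (w₀ : ℝ × ℝ → ℝ), (∀ z, |w₀ z| ≤ 1) → ∀ (s : Finset ℕ) Y t z,
          ‖vel s (Xh (fun n => ε * b n)) qh w₀ Y t z‖ ≤ |ε| * CX := by
        intro w₁ hw₁ s Y t z
        have e1 : vel s (Xh (fun n => ε * b n)) qh w₁ Y t z = ε • vel s (Xh b) qh w₁ Y t z := by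
          unfold vel
          rw [Finset.smul_sum]
          refine Finset.sum_congr rfl fun k _ => ?_
          unfold Xh
          rw [smul_smul, smul_smul, smul_smul]
          congr 1
          ring
        rw [e1, norm_smul, Real.norm_eq_abs]
        exact mul_le_mul_of_nonneg_left (hX w₁ hw₁ s Y t z) (abs_nonneg _)
      have hfr' : ∃ N₁ : ℕ, ∀ N ≥ N₁, ∀ Z Y, Fl3 n₀ (fun n => ε * b n) (fun z => σ * w₀ z) N Z Y →
          σ * w₀ (Y (T₁ / |ε|) ((1 / 2) ^ N, 0)) ≠ 0 := by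
        refine ⟨N₁, fun N hN Z Y hF => ?_⟩
        have hF1 : Fl3 n₀ (fun n => |ε| * b n) w₀ N Z Y := by
          have h3 := hF.sign (σ := σ) (c := σ) h2
          have e2 : (fun n => σ * (ε * b n)) = fun n => |ε| * b n := by
            funext n; rw [← mul_assoc, h1]
          have e3 : (fun z => σ * (σ * w₀ z)) = w₀ := by
            funext z; rw [← mul_assoc, h2, one_mul]
          rwa [e2, e3] at h3
        have hF2 := hF1.scale |ε|⁻¹
        have e4 : (fun n => |ε|⁻¹ * (|ε| * b n)) = b := by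
          funext n; field_simp
        rw [e4] at hF2
        have h5 := hfr N hN _ _ hF2
        have e5 : |ε|⁻¹ * T₁ = T₁ / |ε| := by rw [div_eq_inv_mul]
        simp only [e5] at h5
        refine mul_ne_zero ?_ h5
        intro h6
        rw [h6] at h2
        norm_num at h2
      have hbl := blowup3 (b := fun n => ε * b n) hD' hC (mul_pos hε' hCX) hX'
        (T₁ := T₁ / |ε|) (by positivity) hfr'
      rw [hTe] at hbl
      obtain ⟨g1, g2, g3, g4, u, q, g5, g6, g7, g8, g9, g9', g10, g11⟩ := hbl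
      exact ⟨hL, g1, g2, g3, u, q, g5, g6, g7, g8, g9, g9', g10, g11⟩
    -- the life span for `ε = 1`
    obtain ⟨k1, k2, k3, k4, -⟩ := key 1 1 (by simp) (by simp) one_ne_zero
    have e1 : (fun n => (1:ℝ) * b n) = b := by funext n; rw [one_mul]
    have e2 : (fun z => (1:ℝ) * w₀ z) = w₀ := by funext z; rw [one_mul]
    rw [e1, e2] at k2 k3 k4
    refine ⟨sSup (Life n₀ b w₀), k4, fun ε hε => ?_⟩
    have hσ : ∃ σ : ℝ, σ * ε = |ε| ∧ σ * σ = 1 ∧
        (fun x => Real.sign ε • par w₀ x) = par (fun z => σ * w₀ z) := by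
      rcases lt_or_gt_of_ne hε with h | h
      · refine ⟨-1, by rw [abs_of_neg h]; ring, by norm_num, ?_⟩
        funext x
        rw [par_smul, Real.sign_of_neg h]
      · refine ⟨1, by rw [abs_of_pos h]; ring, by norm_num, ?_⟩
        funext x
        rw [par_smul, Real.sign_of_pos h]
    obtain ⟨σ, h1, h2, h3⟩ := hσ
    obtain ⟨hL, -, -, -, u, q, g5, g6, g7, g8, g9, g9', g10, g11⟩ := key ε σ h1 h2 hε
    rw [hL, sSup_Life (abs_pos.2 hε) k2 k3] at g6 g7 g8 g10 g11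
    exact ⟨u, q, g5.trans h3.symm, g6, g7, g8, g9, g9', g10, g11⟩

end Pool.Agent.Zk27.MB
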