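import Pool.Agent.Zk27.MB3.Cp
import Pool.Agent.Zk27.MB.Sol

/-! Third version: evaluation of the operator on parallel flows -/

open MeasureTheory Set
open scoped ContDiff Topology

namespace Pool.Agent.Zk27.MB

open Pool.Agent.H708R2.EulerSign
open Pool.Agent.R739.ET (wr wr_add wr_eq)

lemma vel_bound3 {a : ℕ → ℝ} (ha : ∀ n, 0 ≤ a n) (hs : Summable fun n => a n * (1 / 2 : ℝ) ^ n)
    {Cc : ℝ} (hc : ∀ M, ∑ j ∈ Finset.range (M + 1), |coef M j| ≤ Cc) :
    ∃ C, 0 < C ∧ ∀ (w₀ : ℝ × ℝ → ℝ), (∀ z, |w₀ z| ≤ 1) → ∀ (s : Finset ℕ) Y t z,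
      ‖vel s (Xh a) qh w₀ Y t z‖ ≤ C := by
  obtain ⟨C2, hC2, h2⟩ := V0_bounded
  have hCc : 0 ≤ Cc := (Finset.sum_nonneg fun j _ => abs_nonneg _).trans (hc 0)
  have hn : 0 ≤ ∑' n, a n * (1 / 2 : ℝ) ^ n := tsum_nonneg fun n => mul_nonneg (ha n) (by positivity)
  refine ⟨Cc * (Cc * C2) * (∑' n, a n * (1 / 2) ^ n) + 1, by positivity, fun w₀ hw s Y t z => ?_⟩
  unfold vel
  refine (norm_sum_le _ _).trans ?_
  have h3 : ∀ k ∈ s, ‖(∫ x, qh k x * w₀ (Y t x)) • Xh a k z‖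
      ≤ Cc * (Cc * C2) * (a k * (1 / 2) ^ k) := by
    intro k _
    rw [norm_smul]
    calc _ ≤ Cc * (Cc * C2 * (a k * (1 / 2) ^ k)) :=
          mul_le_mul (coeff3 hc k (fun x => w₀ (Y t x)) fun x => hw _)
            (Xh_norm ha hC2.le hc k h2 z) (norm_nonneg _) hCc
      _ = _ := by ring
  refine (Finset.sum_le_sum h3).trans ?_
  rw [← Finset.mul_sum]
  have h4 : ∑ k ∈ s, a k * (1 / 2) ^ k ≤ ∑' n, a n * (1 / 2) ^ n :=
    hs.sum_le_tsum s fun k _ => mul_nonneg (ha k) (by positivity)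
  have h5 := mul_le_mul_of_nonneg_left h4 (show 0 ≤ Cc * (Cc * C2) by positivity)
  linarith

lemma bl_F0 (n : ℕ) (x : V) : bl n F0 x = ![0, 0, cl n phi (pr x)] := by
  unfold bl
  ext i
  have h := cl_clm n F0 (ContinuousLinearMap.proj (R := ℝ) (φ := fun _ : Fin 3 => ℝ) i) (pr x)
  simp only [ContinuousLinearMap.proj_apply] at h
  rw [h]
  fin_cases i
  · simp [F0, cl]
  · simp [F0, cl]
  · simp [F0]

lemma bl_G0 (n : ℕ) (x : V) : bl n G0 x = emb (cl n V0 (pr x)) := by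
  unfold bl emb
  ext i
  have h := cl_clm n G0 (ContinuousLinearMap.proj (R := ℝ) (φ := fun _ : Fin 3 => ℝ) i) (pr x)
  simp only [ContinuousLinearMap.proj_apply] at h
  rw [h]
  fin_cases i
  · have h1 := cl_clm n V0 (ContinuousLinearMap.fst ℝ ℝ ℝ) (pr x)
    simp only [ContinuousLinearMap.coe_fst'] at h1
    simp [G0, h1]
  · have h1 := cl_clm n V0 (ContinuousLinearMap.snd ℝ ℝ ℝ) (pr x)
    simp only [ContinuousLinearMap.coe_snd'] at h1
    simp [G0, h1]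
  · simp [G0, cl]

lemma ip_F3 {n : ℕ} (hn : 6 ≤ n) {w : ℝ × ℝ → ℝ}
    (hw : Continuous w) : ip (par w) (bl n F0) = 2 * Real.pi * ∫ z, w z * cl n phi z := by
  unfold ip
  have h1 : ∀ x : V, ∑ i, par w x i * bl n F0 x i
      = (fun z => w z * cl n phi z) (pr x) := by
    intro x
    rw [bl_F0, Fin.sum_univ_three]
    simp [par]
  simp only [h1]
  refine integral_pr _ (hw.mul (cl_smooth n phi_smooth).continuous) fun z hz => ?_
  have h2 : cl n phi z ≠ 0 := right_ne_zero_of_mul hz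
  have h3 := cl_small phi_supp2 h2
  exact ⟨h3.1.trans_lt (lt3 hn), h3.2.trans_lt (lt3' hn)⟩

lemma ip_G3 (n : ℕ) (w : ℝ × ℝ → ℝ) : ip (par w) (bl n G0) = 0 := by
  unfold ip
  have h1 : ∀ x : V, ∑ i, par w x i * bl n G0 x i = 0 := by
    intro x
    rw [bl_G0, Fin.sum_univ_three]
    simp [par, emb]
  simp only [h1, integral_zero]

/-- the operator of the cascade with the weights `a` -/
noncomputable def TH (n₀ : ℕ) (a : ℕ → ℝ) : (V → V) → V → V :=
  opr (fun n => 1 / (2 * Real.pi) * (a (n₀ + n) * 2 ^ (n₀ + n))) (fun n => bl (n₀ + n) F0)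
    (fun n => bl (n₀ + n) G0)

/-- the operator on a parallel flow which vanishes near the origin -/
lemma TH_par {n₀ : ℕ} (h : 6 ≤ n₀) (a : ℕ → ℝ) {w : ℝ × ℝ → ℝ} (hw : Continuous w)
    {N : ℕ} (hN : ∀ z, ‖z‖ ≤ Rd N → w z = 0) (x : V) :
    TH n₀ a (par w) x
      = emb (∑ k ∈ Finset.Icc n₀ N, (∫ z, qh k z * w z) • Xh a k (pr x)) := by
  unfold TH opr
  have h1 : ∀ n, (1 / (2 * Real.pi) * (a (n₀ + n) * 2 ^ (n₀ + n))) •
      (ip (par w) (bl (n₀ + n) F0) • bl (n₀ + n) G0 x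
        + ip (par w) (bl (n₀ + n) G0) • bl (n₀ + n) F0 x)
      = emb ((∫ z, qh (n₀ + n) z * w z) • Xh a (n₀ + n) (pr x)) := by
    intro n
    rw [ip_G3, zero_smul, add_zero, ip_F3 (h.trans (Nat.le_add_right _ _)) hw, bl_G0, smul_smul,
      ← emb_smul]
    congr 1
    unfold Xh
    rw [smul_smul]
    congr 1
    have e : ∫ z, qh (n₀ + n) z * w z
        = 4 ^ (n₀ + n) * ∫ z, w z * cl (n₀ + n) phi z := by
      rw [← integral_const_mul]
      congr 1
      funext z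
      unfold qh; ring
    rw [e]
    have hpi := Real.pi_pos
    have e4 : (4:ℝ) ^ (n₀ + n) * (1 / 2) ^ (n₀ + n) = 2 ^ (n₀ + n) := by
      rw [← mul_pow]; norm_num
    calc 1 / (2 * Real.pi) * (a (n₀ + n) * 2 ^ (n₀ + n)) *
          (2 * Real.pi * ∫ z, w z * cl (n₀ + n) phi z)
        = a (n₀ + n) * (2 ^ (n₀ + n)) * ∫ z, w z * cl (n₀ + n) phi z := by
          field_simp
      _ = _ := by rw [← e4]; ring
  simp only [h1]
  have h2 : ∀ k, N < k → ∫ z, qh k z * w z = 0 := by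
    intro k hk
    have : ∀ z, qh k z * w z = 0 := by
      intro z
      by_cases hz : qh k z = 0
      · rw [hz, zero_mul]
      · have h3 := qh_small hz
        rw [hN z, mul_zero]
        rw [Prod.norm_def]
        exact max_le (h3.1.trans ((small3 k).trans (Rd_anti hk.le)))
          (h3.2.trans ((two3 k).trans (Rd_anti hk.le)))
    simp only [this, integral_zero]
  rw [tsum_eq_sum (s := Finset.range (N + 1 - n₀))]
  · rw [emb_sum]
    rw [← Finset.Ico_add_one_right_eq_Icc, Finset.sum_Ico_eq_sum_range]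
  · intro n hn
    rw [Finset.mem_range] at hn
    rw [h2 (n₀ + n) (by omega), zero_smul, emb_zero]

end Pool.Agent.Zk27.MB
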