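import Pool.Agent.Zk27.MB3.Par

/-! Third version: the truncated flows give solutions as long as they vanish near the origin -/

open MeasureTheory Set
open scoped ContDiff Topology

namespace Pool.Agent.Zk27.MB

open Pool.Agent.H708R2.EulerSign
open Pool.Agent.R739.ET (wr wr_add wr_eq)

/-- the data of the construction -/
structure Dat3 (n₀ : ℕ) (w₀ : ℝ × ℝ → ℝ) (r₀ : ℝ) : Prop where
  hn : 6 ≤ n₀
  smooth : ContDiff ℝ ∞ w₀
  le_one : ∀ z, |w₀ z| ≤ 1
  pos : 0 < r₀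
  supp : ∀ z, w₀ z ≠ 0 → r₀ ≤ z.1 ∧ z.1 < 1 ∧ |z.2| < 1

variable {n₀ : ℕ} {b : ℕ → ℝ} {w₀ : ℝ × ℝ → ℝ} {r₀ : ℝ} {N : ℕ} {Z Y : ℝ → ℝ × ℝ → ℝ × ℝ}

/-- the `N`-th truncated flow -/
def Fl3 (n₀ : ℕ) (b : ℕ → ℝ) (w₀ : ℝ × ℝ → ℝ) (N : ℕ) (Z Y : ℝ → ℝ × ℝ → ℝ × ℝ) : Prop :=
  IsFlow (Finset.Icc n₀ N) (Xh b) (qh) w₀ Z Y

/-- the solution vanishes near the origin up to the time `t` -/
def Good3 (w₀ : ℝ × ℝ → ℝ) (N : ℕ) (Y : ℝ → ℝ × ℝ → ℝ × ℝ) (t : ℝ) : Prop :=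
  ∀ s ∈ Icc 0 t, ∀ z : ℝ × ℝ, ‖z‖ ≤ Rd N → w₀ (Y s z) = 0

lemma Dat3.supp' (hD : Dat3 n₀ w₀ r₀) {z : ℝ × ℝ} (h : w₀ z ≠ 0) : |z.1| < 1 ∧ |z.2| < 1 := by
  obtain ⟨h1, h2, h3⟩ := hD.supp z h
  exact ⟨abs_lt.2 ⟨by linarith [hD.pos], h2⟩, h3⟩

lemma Xh_out (hn : 6 ≤ n₀) {k : ℕ} (hk : n₀ ≤ k) {z : ℝ × ℝ} (h : Xh b k z ≠ 0) :
    |z.1| < 1 ∧ |z.2| < 1 := by
  have h3 := Xh_small h
  exact ⟨h3.1.trans_lt (lt3 (hn.trans hk)), h3.2.trans_lt (lt3' (hn.trans hk))⟩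

lemma Fl3.supp (hD : Dat3 n₀ w₀ r₀) (hF : Fl3 n₀ b w₀ N Z Y) (t : ℝ) {z : ℝ × ℝ}
    (h : w₀ (Y t z) ≠ 0) : |z.1| < 1 ∧ |z.2| < 1 := by
  by_contra hcon
  have h1 : ∀ k ∈ Finset.Icc n₀ N, Xh b k z = 0 := by
    intro k hk
    by_contra h2
    exact hcon (Xh_out hD.hn (Finset.mem_Icc.1 hk).1 h2)
  rw [hF.fix h1] at h
  exact hcon (hD.supp' h)

lemma wt_smooth3 (hD : Dat3 n₀ w₀ r₀) (hF : Fl3 n₀ b w₀ N Z Y) :
    ContDiff ℝ ∞ (fun p : ℝ × (ℝ × ℝ) => wt w₀ Y p.1 p.2) := hD.smooth.comp hF.smoothY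

lemma wt_smooth3' (hD : Dat3 n₀ w₀ r₀) (hF : Fl3 n₀ b w₀ N Z Y) (t : ℝ) :
    ContDiff ℝ ∞ (wt w₀ Y t) := hD.smooth.comp (hF.smoothYt t)

lemma wt_supp3 (hD : Dat3 n₀ w₀ r₀) (hF : Fl3 n₀ b w₀ N Z Y) (t : ℝ) (z : ℝ × ℝ)
    (h : wt w₀ Y t z ≠ 0) : |z.1| < 1 ∧ |z.2| < 1 := hF.supp hD t h

/-- the profile on the torus is smooth in space and time -/
lemma wt_pr_smooth3 (hD : Dat3 n₀ w₀ r₀) (hF : Fl3 n₀ b w₀ N Z Y) :
    ContDiff ℝ ∞ (fun p : ℝ × V => wt w₀ Y p.1 (pr p.2)) := by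
  have := comp_pr_contDiff univ (fun t z => wt w₀ Y t z)
    (wt_smooth3 hD hF).contDiffOn (fun t _ z h => wt_supp3 hD hF t z h)
  rw [univ_prod_univ, contDiffOn_univ] at this
  exact this

lemma sol_smooth3 (hD : Dat3 n₀ w₀ r₀) (hF : Fl3 n₀ b w₀ N Z Y) :
    ContDiff ℝ ∞ (fun p : ℝ × V => sol w₀ Y p.1 p.2) := by
  unfold sol par
  rw [contDiff_pi]
  intro i
  fin_cases i
  · exact contDiff_const
  · exact contDiff_const
  · exact wt_pr_smooth3 hD hF

lemma prs_smooth3 (hD : Dat3 n₀ w₀ r₀) (hF : Fl3 n₀ b w₀ N Z Y) :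
    ContDiff ℝ ∞ (fun p : ℝ × V => prs w₀ Y p.1 p.2) := by
  unfold prs
  exact ((wt_pr_smooth3 hD hF).pow 2).div_const 2

lemma Good3.mono {t t' : ℝ} (h : Good3 w₀ N Y t) (ht : t' ≤ t) : Good3 w₀ N Y t' :=
  fun s hs z hz => h s ⟨hs.1, hs.2.trans ht⟩ z hz

/-- the truncated flow solves the full equation as long as it vanishes near the origin -/
lemma isModSol3 (hD : Dat3 n₀ w₀ r₀) (hF : Fl3 n₀ b w₀ N Z Y) {a : ℝ} (hG : Good3 w₀ N Y a) :
    IsModSol (TH n₀ b) (Ico 0 a) (sol w₀ Y) (prs w₀ Y) where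
  contDiffOn_u := ((sol_smooth3 hD hF).of_le (by simp)).contDiffOn
  contDiffOn_q := ((prs_smooth3 hD hF).of_le (by simp)).contDiffOn
  periodic_u := fun t _ => par_periodic _
  periodic_q := fun t _ i x => by unfold prs; rw [pr_periodic i x]
  div_free := by
    intro t _ x
    unfold divergence grad Matrix.trace
    rw [Fin.sum_univ_three]
    have h1 : ∀ v, fderiv ℝ (sol w₀ Y t) x v = ![0, 0, fderiv ℝ (wt w₀ Y t) (pr x) (v 0, v 1)] :=
      par_fderiv ((wt_smooth3' hD hF t).of_le (by simp)) (wt_supp3 hD hF t) x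
    simp only [Matrix.diag_apply, Matrix.of_apply, h1]
    simp
    have : ((0:ℝ), (0:ℝ)) = 0 := rfl
    rw [this, map_zero]
  momentum := by
    intro t ht x i
    have h1 : ∀ v, fderiv ℝ (sol w₀ Y t) x v = ![0, 0, fderiv ℝ (wt w₀ Y t) (pr x) (v 0, v 1)] :=
      par_fderiv ((wt_smooth3' hD hF t).of_le (by simp)) (wt_supp3 hD hF t) x
    have hT : TH n₀ b (sol w₀ Y t) x = emb (vel (Finset.Icc n₀ N) (Xh b) (qh) w₀ Y t (pr x)) :=
      TH_par hD.hn b (wt_smooth3' hD hF t).continuous (hG t (Ico_subset_Icc_self ht)) x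
    have hq : ∀ v, fderiv ℝ (prs w₀ Y t) x v
        = wt w₀ Y t (pr x) * fderiv ℝ (wt w₀ Y t) (pr x) (v 0, v 1) := by
      intro v
      have h2 := fderiv_comp_pr (fun z => (wt w₀ Y t z) ^ 2 / 2)
        ((((wt_smooth3' hD hF t).of_le (by simp)).pow 2).div_const 2)
        (fun z hz => wt_supp3 hD hF t z fun h => hz (by simp [h])) x v
      have h3 : prs w₀ Y t = fun x => (fun z => (wt w₀ Y t z) ^ 2 / 2) (pr x) := rfl
      rw [h3, h2]
      have h4 : HasFDerivAt (wt w₀ Y t) (fderiv ℝ (wt w₀ Y t) (pr x)) (pr x) :=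
        ((wt_smooth3' hD hF t).differentiable (by simp) _).hasFDerivAt
      have h5 : HasFDerivAt (fun z => (wt w₀ Y t z) ^ 2 / 2)
          ((wt w₀ Y t (pr x)) • fderiv ℝ (wt w₀ Y t) (pr x)) (pr x) := by
        have h6 := (h4.mul h4).mul_const (1 / 2 : ℝ)
        refine (h6.congr_fderiv ?_).congr_of_eventuallyEq ?_
        · ext <;> simp <;> ring
        · exact Filter.Eventually.of_forall fun z => by simp; ring
      rw [h5.fderiv]
      rfl
    have hu : UniqueDiffWithinAt ℝ (Ico 0 a) t :=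
      uniqueDiffOn_Ico 0 a t ht
    rw [hT, hq]
    simp only [h1]
    rw [Fin.sum_univ_three]
    set L := fderiv ℝ (wt w₀ Y t) (pr x) with hL
    have hz : L (0, 0) = 0 := by
      have : ((0:ℝ), (0:ℝ)) = 0 := rfl
      rw [this, map_zero]
    have hs2 : sol w₀ Y t x 2 = wt w₀ Y t (pr x) := rfl
    have hs1 : sol w₀ Y t x 1 = 0 := rfl
    have hs0 : sol w₀ Y t x 0 = 0 := rfl
    have he2 : ∀ v, emb v 2 = 0 := fun v => rfl
    have he1 : ∀ v, emb v 1 = v.2 := fun v => rfl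
    have he0 : ∀ v, emb v 0 = v.1 := fun v => rfl
    fin_cases i
    · have e : (fun s => sol w₀ Y s x 0) = fun _ => 0 := rfl
      simp only [Fin.zero_eta, e]
      simp [hs2, hs1, hs0, he2, hz]
    · have e : (fun s => sol w₀ Y s x 1) = fun _ => 0 := rfl
      simp only [Fin.mk_one, e]
      simp [hs2, hs1, hs0, he2, hz]
    · have e : (fun s => sol w₀ Y s x 2) = fun s => w₀ (Y s (pr x)) := rfl
      simp only [Fin.reduceFinMk, e]
      rw [(hF.transport hD.smooth t (pr x)).hasDerivWithinAt.derivWithin hu]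
      have e2 : fderiv ℝ (fun y => w₀ (Y t y)) (pr x) = L := rfl
      rw [e2]
      set v := vel (Finset.Icc n₀ N) (Xh b) (qh) w₀ Y t (pr x) with hv
      have e3 : L v = v.1 * L (1, 0) + v.2 * L (0, 1) := by
        have : v = v.1 • (1, 0) + v.2 • (0, 1) := by ext <;> simp
        conv_lhs => rw [this]
        rw [map_add, map_smul, map_smul, smul_eq_mul, smul_eq_mul]
      rw [e3]
      simp [hs2, hs1, hs0, he2, he1, he0, hz]

/-- a parallel flow is a steady solution of the Euler equations -/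
lemma par_steady {w : ℝ × ℝ → ℝ} (hw : ContDiff ℝ 1 w)
    (hs : ∀ z, w z ≠ 0 → |z.1| < 1 ∧ |z.2| < 1) :
    IsClassicalSolution univ (fun _ => par w) (fun _ _ => 0) where
  contDiffOn_u := by
    have h0 : ContDiff ℝ 1 (fun x => w (pr x)) := by
      have := comp_pr_contDiff univ (fun _ z => w z) (m := 1)
        (hw.comp contDiff_snd).contDiffOn (fun t _ z h => hs z h)
      rw [univ_prod_univ, contDiffOn_univ] at this
      exact this.comp ((contDiff_const (c := (0:ℝ))).prodMk contDiff_id)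
    have h1 : ContDiff ℝ 1 (par w) := by
      unfold par
      rw [contDiff_pi]
      intro i
      fin_cases i
      · exact contDiff_const
      · exact contDiff_const
      · exact h0
    exact (h1.comp contDiff_snd).contDiffOn
  contDiffOn_p := contDiffOn_const
  periodic_u := fun t _ => par_periodic _
  periodic_p := fun t _ i x => rfl
  div_free := by
    intro t _ x
    unfold divergence grad Matrix.trace
    rw [Fin.sum_univ_three]
    have h1 : ∀ v, fderiv ℝ (par w) x v = ![0, 0, fderiv ℝ w (pr x) (v 0, v 1)] :=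
      par_fderiv hw hs x
    simp only [Matrix.diag_apply, Matrix.of_apply, h1]
    simp
    have : ((0:ℝ), (0:ℝ)) = 0 := rfl
    rw [this, map_zero]
  momentum := by
    intro t _ x i
    have h1 : ∀ v, fderiv ℝ (par w) x v = ![0, 0, fderiv ℝ w (pr x) (v 0, v 1)] :=
      par_fderiv hw hs x
    have hz : fderiv ℝ w (pr x) (0, 0) = 0 := by
      have : ((0:ℝ), (0:ℝ)) = 0 := rfl
      rw [this, map_zero]
    rw [Fin.sum_univ_three]
    simp only [h1]
    have hs1 : par w x 1 = 0 := rfl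
    have hs0 : par w x 0 = 0 := rfl
    fin_cases i <;> simp [hs1, hs0, hz]

lemma exists_Fl3 (hD : Dat3 n₀ w₀ r₀) (b : ℕ → ℝ) (N : ℕ)
    (hflow : ∀ (s : Finset ℕ) (X : ℕ → ℝ × ℝ → ℝ × ℝ) (φ : ℕ → ℝ × ℝ → ℝ) (w₀ : ℝ × ℝ → ℝ),
      (∀ k ∈ s, ContDiff ℝ ∞ (X k)) → (∀ k ∈ s, HasCompactSupport (X k)) →
      (∀ k ∈ s, ∀ p, (fderiv ℝ (X k) p (1, 0)).1 + (fderiv ℝ (X k) p (0, 1)).2 = 0) →
      (∀ k ∈ s, ContDiff ℝ ∞ (φ k)) → (∀ k ∈ s, HasCompactSupport (φ k)) →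
      ContDiff ℝ ∞ w₀ → HasCompactSupport w₀ → ∃ Z Y, IsFlow s X φ w₀ Z Y) :
    ∃ Z Y, Fl3 n₀ b w₀ N Z Y := by
  have hc : HasCompactSupport w₀ := by
    refine HasCompactSupport.intro ((isCompact_Icc (a := (-1:ℝ)) (b := 1)).prod
      (isCompact_Icc (a := (-1:ℝ)) (b := 1))) fun z hz => ?_
    by_contra h
    have := hD.supp' h
    exact hz ⟨_root_.abs_le.1 this.1.le, _root_.abs_le.1 this.2.le⟩
  exact hflow (Finset.Icc n₀ N)
    (Xh b) qh w₀ (fun k _ => Xh_smooth b k) (fun k _ => Xh_compact b k)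
    (fun k _ => Xh_div b k) (fun k _ => qh_smooth k)
    (fun k _ => qh_compact k) hD.smooth hc

/-- change of the time scale -/
lemma Fl3.scale (hF : Fl3 n₀ b w₀ N Z Y) (c : ℝ) :
    Fl3 n₀ (fun n => c * b n) w₀ N (fun t => Z (c * t)) (fun t => Y (c * t)) where
  smoothZ := hF.smoothZ.comp ((contDiff_const.mul contDiff_fst).prodMk contDiff_snd)
  smoothY := hF.smoothY.comp ((contDiff_const.mul contDiff_fst).prodMk contDiff_snd)
  zero := fun p => by simp only [mul_zero]; exact hF.zero p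
  left := fun t p => hF.left (c * t) p
  right := fun t p => hF.right (c * t) p
  ode := by
    intro t p
    have h1 := (hF.ode (c * t) p).scomp t ((hasDerivAt_id t).const_mul c)
    refine h1.congr_deriv ?_
    rw [mul_one, Finset.smul_sum]
    refine Finset.sum_congr rfl fun k _ => ?_
    unfold Xh
    rw [smul_smul, smul_smul, smul_smul]
    congr 1
    ring

/-- the set of times up to which there is a good truncated flow -/
def Life (n₀ : ℕ) (b : ℕ → ℝ) (w₀ : ℝ × ℝ → ℝ) : Set ℝ :=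
  {t | 0 ≤ t ∧ ∃ N Z Y, Fl3 n₀ b w₀ N Z Y ∧ Good3 w₀ N Y t}

lemma Life.scale {t c : ℝ} (hc : 0 < c) (ht : t ∈ Life n₀ b w₀) :
    t / c ∈ Life n₀ (fun n => c * b n) w₀ := by
  obtain ⟨h0, N, Z, Y, hF, hG⟩ := ht
  refine ⟨by positivity, N, _, _, hF.scale c, fun s hs z hz => ?_⟩
  refine hG (c * s) ⟨mul_nonneg hc.le hs.1, ?_⟩ z hz
  have := hs.2
  rw [le_div_iff₀ hc] at this
  linarith

lemma sSup_Life {c : ℝ} (hc : 0 < c) (hne : (Life n₀ b w₀).Nonempty)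
    (hb : BddAbove (Life n₀ b w₀)) :
    sSup (Life n₀ (fun n => c * b n) w₀) = sSup (Life n₀ b w₀) / c := by
  have e : Life n₀ (fun n => c * b n) w₀ = (fun t => t / c) '' Life n₀ b w₀ := by
    ext t
    constructor
    · intro ht
      refine ⟨c * t, ?_, by field_simp⟩
      have h := Life.scale (c := c⁻¹) (inv_pos.2 hc) ht
      have e1 : t / c⁻¹ = c * t := by field_simp
      have e2 : (fun n => c⁻¹ * (c * b n)) = b := by
        funext n; field_simp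
      rwa [e1, e2] at h
    · rintro ⟨s, hs, rfl⟩
      exact Life.scale hc hs
  rw [e]
  have hmono : Monotone (fun t : ℝ => t / c) := fun a b h => by
    simp only; gcongr
  have hcont : ContinuousAt (fun t : ℝ => t / c) (sSup (Life n₀ b w₀)) := by fun_prop
  exact (hmono.map_csSup_of_continuousAt hcont hne hb).symm

lemma TH_smul (n₀ : ℕ) (c : ℝ) (b : ℕ → ℝ) (u : V → V) (x : V) :
    TH n₀ (fun n => c * b n) u x = c • TH n₀ b u x := by
  unfold TH opr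
  rw [← tsum_const_smul'']
  congr 1
  funext n
  rw [smul_smul]
  congr 1
  ring

end Pool.Agent.Zk27.MB
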